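import Pool.Agent.Y113.Defs

/-!
# Normal form of polynomials on the quadric `w 0 * w 3 - w 1 * w 2 = -1`
-/

set_option autoImplicit false

open Pool.Agent.Y113

namespace Pool.Agent.Y925.A

/-- a polynomial has a normal form -/
def Nf {A : Type} [CommRing A] (P : MvPolynomial (Fin 4) A) : Prop :=
  ∃ (ι : Type) (_ : Fintype ι) (c : ι → A) (m : ι → Fin 4 → ℕ), (∀ i, m i 0 = 0 ∨ m i 3 = 0) ∧
    ∀ (B : Type) [CommRing B] (f : A →+* B) (w : Fin 4 → B), w 0 * w 3 - w 1 * w 2 = -1 →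
      MvPolynomial.eval₂ f w P = ∑ i, f (c i) * ∏ j, w j ^ m i j

theorem Nf.add {A : Type} [CommRing A] {P Q : MvPolynomial (Fin 4) A} (hP : Nf P) (hQ : Nf Q) :
    Nf (P + Q) := by
  obtain ⟨ι, _, c, m, h1, h2⟩ := hP
  obtain ⟨κ, _, d, n, h3, h4⟩ := hQ
  refine ⟨ι ⊕ κ, inferInstance, Sum.elim c d, Sum.elim m n, ?_, ?_⟩
  · rintro (i | i)
    · exact h1 i
    · exact h3 i
  · intro B _ f w hw
    rw [MvPolynomial.eval₂_add, h2 B f w hw, h4 B f w hw, Fintype.sum_sum_type]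
    rfl

theorem Nf.mon {A : Type} [CommRing A] (s : Fin 4 →₀ ℕ) (a : A) :
    Nf (MvPolynomial.monomial s a) := by
  obtain ⟨k, hk⟩ : ∃ k, k = min (s 0) (s 3) := ⟨_, rfl⟩
  refine ⟨Fin (k + 1), inferInstance,
    fun j => a * ((-1) ^ (k - (j : ℕ)) * ((k.choose (j : ℕ) : ℕ) : A)),
    fun j => ![s 0 - k, s 1 + j, s 2 + j, s 3 - k], ?_, ?_⟩
  · intro j
    show s 0 - k = 0 ∨ s 3 - k = 0
    omega
  · intro B _ f w hw
    rw [MvPolynomial.eval₂_monomial, Finsupp.prod_fintype _ _ (fun i => pow_zero _),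
      Fin.prod_univ_four]
    have e : w 0 * w 3 = w 1 * w 2 + -1 := by linear_combination hw
    have e0 : w 0 ^ s 0 = w 0 ^ (s 0 - k) * w 0 ^ k := by
      rw [← pow_add]
      congr 1
      omega
    have e3 : w 3 ^ s 3 = w 3 ^ (s 3 - k) * w 3 ^ k := by
      rw [← pow_add]
      congr 1
      omega
    have e4 : w 0 ^ k * w 3 ^ k = ∑ j : Fin (k + 1),
        (w 1 * w 2) ^ (j : ℕ) * (-1) ^ (k - (j : ℕ)) * ((k.choose (j : ℕ) : ℕ) : B) := by
      rw [← mul_pow, e, add_pow, Finset.sum_range]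
    calc f a * (w 0 ^ s 0 * w 1 ^ s 1 * w 2 ^ s 2 * w 3 ^ s 3)
        = f a * w 0 ^ (s 0 - k) * w 1 ^ s 1 * w 2 ^ s 2 * w 3 ^ (s 3 - k) *
          (w 0 ^ k * w 3 ^ k) := by
          rw [e0, e3]
          ring
      _ = _ := by
        rw [e4, Finset.mul_sum]
        refine Finset.sum_congr rfl fun j _ => ?_
        rw [Fin.prod_univ_four]
        simp only [map_mul, map_pow, map_neg, map_one, map_natCast, Matrix.cons_val]
        rw [pow_add, pow_add, mul_pow]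
        ring

theorem nf_all {A : Type} [CommRing A] (P : MvPolynomial (Fin 4) A) : Nf P :=
  MvPolynomial.induction_on' P Nf.mon (fun _ _ => Nf.add)

theorem nform {A : Type} [CommRing A] (P : MvPolynomial (Fin 4) A) : ∃ (Δ : ℕ) (c : Ex Δ → A),
    ∀ (B : Type) [CommRing B] (f : A →+* B) (w : Fin 4 → B), w 0 * w 3 - w 1 * w 2 = -1 →
      MvPolynomial.eval₂ f w P = ∑ e, f (c e) * ∏ j, w j ^ (e.1 j : ℕ) := by
  classical
  obtain ⟨ι, _, c, m, h1, h2⟩ := nf_all P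
  obtain ⟨Δ, hΔ⟩ : ∃ Δ, ∀ i, ∑ j, m i j ≤ Δ :=
    ⟨∑ i, ∑ j, m i j, fun i => Finset.single_le_sum (f := fun i => ∑ j, m i j)
      (fun _ _ => Nat.zero_le _) (Finset.mem_univ i)⟩
  have hlt : ∀ i j, m i j < Δ + 1 := fun i j => Nat.lt_succ_of_le
    ((Finset.single_le_sum (f := m i) (fun _ _ => Nat.zero_le _) (Finset.mem_univ j)).trans (hΔ i))
  let φ : ι → Ex Δ := fun i => ⟨fun j => ⟨m i j, hlt i j⟩, hΔ i,
    (h1 i).imp (fun h => Fin.ext h) (fun h => Fin.ext h)⟩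
  refine ⟨Δ, fun e => ∑ i with φ i = e, c i, fun B _ f w hw => ?_⟩
  rw [h2 B f w hw, ← Finset.sum_fiberwise Finset.univ φ]
  refine Finset.sum_congr rfl fun e _ => ?_
  rw [map_sum, Finset.sum_mul]
  refine Finset.sum_congr rfl fun i hi => ?_
  obtain ⟨-, rfl⟩ := Finset.mem_filter.1 hi
  rfl

end Pool.Agent.Y925.A
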