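import Pool.Agent.Y120.A.Defs
import Pool.Agent.Y167.K.Lij
import Pool.Agent.Y37.GF.Ev
import Pool.Agent.Y925.A.Nf

/-!
# Relations between the four modular functions
-/

set_option autoImplicit false
set_option maxHeartbeats 400000

open PowerSeries Pool.Agent.Y113 Pool.Agent.Y120.J Pool.Agent.Y120.K Pool.Agent.Y120.A
open Pool.Agent.Y120.GH (sf)
open Pool.Agent.Y37.GF (E SR mv)
open Filter Topology Set

namespace Pool.Agent.Y925.A

/-- functions which are analytic on the closed interval -/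
def AnR : Subalgebra ℝ (ℝ → ℝ) where
  carrier := {c | ∀ x ∈ Set.Icc 0 (z1 true 1), AnalyticAt ℝ c x}
  mul_mem' := fun ha hb x hx => (ha x hx).mul (hb x hx)
  add_mem' := fun ha hb x hx => (ha x hx).add (hb x hx)
  algebraMap_mem' := fun _ _ _ => analyticAt_const

/-- evaluation at `x` -/
def eR (x : ℝ) : AnR →+* ℝ := (Pi.evalRingHom (fun _ : ℝ => ℝ) x).comp AnR.val.toRingHom

theorem z1_eq : z1 true 1 = 1 / 1729 := by
  unfold z1 Js
  norm_num

theorem lt_one {x : ℝ} (hx : x ∈ Icc 0 (z1 true 1)) : 0 < 1 - x := by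
  have := hx.2
  rw [z1_eq] at this
  norm_num at this
  linarith

noncomputable def tauR : AnR := ⟨fun x => x / (1 - x), fun x hx =>
  analyticAt_id.div (analyticAt_const.sub analyticAt_id) (lt_one hx).ne'⟩

noncomputable def logR : AnR := ⟨fun x => Real.log (1 - x), fun x hx =>
  (analyticAt_const.sub analyticAt_id).log (lt_one hx)⟩

noncomputable def cf : Polynomial ℚ →+* AnR :=
  Polynomial.eval₂RingHom ((algebraMap ℝ AnR).comp (Rat.castHom ℝ)) tauR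

noncomputable def Gg : Fin 4 → MvPolynomial (Fin 4) AnR :=
  ![MvPolynomial.X 0, -MvPolynomial.X 2 + MvPolynomial.X 0 * MvPolynomial.C logR,
    MvPolynomial.X 1, -MvPolynomial.X 3 + MvPolynomial.X 1 * MvPolynomial.C logR]

/-- the relation after the substitution -/
noncomputable def PR (R : MvPolynomial (Fin 4) (Polynomial ℚ)) : MvPolynomial (Fin 4) AnR :=
  MvPolynomial.eval₂Hom (MvPolynomial.C.comp cf) Gg R

theorem ev_PR {B : Type} [CommRing B] (f : AnR →+* B) (w : Fin 4 → B)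
    (R : MvPolynomial (Fin 4) (Polynomial ℚ)) : MvPolynomial.eval₂ f w (PR R) =
      MvPolynomial.eval₂ (f.comp cf)
        ![w 0, -w 2 + w 0 * f logR, w 1, -w 3 + w 1 * f logR] R := by
  have h := RingHom.congr_fun (MvPolynomial.comp_eval₂Hom (MvPolynomial.C.comp cf) Gg
    (MvPolynomial.eval₂Hom f w)) R
  have h1 : (MvPolynomial.eval₂Hom f w).comp (MvPolynomial.C.comp cf) = f.comp cf := by
    apply RingHom.ext
    intro a
    show MvPolynomial.eval₂ f w (MvPolynomial.C (cf a)) = f (cf a)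
    rw [MvPolynomial.eval₂_C]
  have h2 : (fun i => MvPolynomial.eval₂Hom f w (Gg i)) =
      ![w 0, -w 2 + w 0 * f logR, w 1, -w 3 + w 1 * f logR] := by
    funext i
    fin_cases i
    · simp [Gg]
    · simp [Gg]
    · simp [Gg]
    · simp [Gg]
  rw [h1, h2] at h
  exact h

theorem rhom {B : Type} [CommRing B] (f g : Polynomial ℚ →+* B) (h : f Polynomial.X = g Polynomial.X) :
    f = g := by
  apply Polynomial.ringHom_ext'
  · exact Subsingleton.elim _ _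
  · exact h

theorem cfR (x : ℝ) : (eR x).comp cf = (Polynomial.aeval (x / (1 - x)) : Polynomial ℚ →ₐ[ℚ] ℝ).toRingHom := by
  apply rhom
  show eR x (cf Polynomial.X) = Polynomial.aeval (x / (1 - x)) Polynomial.X
  rw [Polynomial.aeval_X]
  unfold cf
  rw [Polynomial.coe_eval₂RingHom, Polynomial.eval₂_X]
  rfl

theorem cfC (x : ℝ) : (((algebraMap ℝ ℂ).comp (eR x))).comp cf =
    (Polynomial.aeval ((x / (1 - x) : ℝ) : ℂ) : Polynomial ℚ →ₐ[ℚ] ℂ).toRingHom := by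
  apply rhom
  show algebraMap ℝ ℂ (eR x (cf Polynomial.X)) = Polynomial.aeval ((x / (1 - x) : ℝ) : ℂ) Polynomial.X
  rw [Polynomial.aeval_X]
  unfold cf
  rw [Polynomial.coe_eval₂RingHom, Polynomial.eval₂_X]
  rfl

/-! ### values of relations -/

theorem E_rel {n : ℕ} (h : Fin n → ℚ⟦X⟧) {ρ z : ℝ} (hρ : 0 ≤ ρ) (hh : ∀ i, SR ρ (h i)) (hz : |z| ≤ ρ)
    (R : MvPolynomial (Fin n) (Polynomial ℚ)) : SR ρ (MvPolynomial.aeval h R) ∧
      E (MvPolynomial.aeval h R) z =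
      MvPolynomial.eval₂ (Polynomial.aeval z : Polynomial ℚ →ₐ[ℚ] ℝ).toRingHom (fun i => E (h i) z) R := by
  induction R using MvPolynomial.induction_on with
  | C a =>
    have e : MvPolynomial.aeval h (MvPolynomial.C a : MvPolynomial (Fin n) (Polynomial ℚ)) = (a : ℚ⟦X⟧) := by
      rw [MvPolynomial.aeval_C]
      rfl
    rw [e, MvPolynomial.eval₂_C]
    exact ⟨SR.poly _ _, Pool.Agent.Y37.GF.E_poly _ _⟩
  | add p q hp hq =>
    rw [map_add, MvPolynomial.eval₂_add, ← hp.2, ← hq.2]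
    exact ⟨hp.1.add hρ hq.1, Pool.Agent.Y37.GF.E_add hp.1 hq.1 hz⟩
  | mul_X p i hp =>
    rw [map_mul, MvPolynomial.eval₂_mul, MvPolynomial.aeval_X, MvPolynomial.eval₂_X, ← hp.2]
    exact ⟨hp.1.mul hρ (hh i), Pool.Agent.Y37.GF.E_mul hp.1 (hh i) hz⟩

theorem SR_hJ : ∃ ρ : ℝ, 0 < ρ ∧ ∀ i, SR ρ (hJ i) := by
  have h1 : ∀ i, ∃ r : ℝ, 0 < r ∧ SR r (hJ i) := by
    intro i
    obtain ⟨n, hn⟩ := Pool.Agent.Y167.K.SDc_hJ i
    exact ⟨_, by positivity, Pool.Agent.Y167.K.SR_of_SDp hn⟩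
  choose r hr hs using h1
  obtain ⟨i₀, -, hi₀⟩ := Finset.exists_min_image Finset.univ r ⟨0, Finset.mem_univ _⟩
  exact ⟨r i₀, hr i₀, fun i => (hs i).mono (hr i₀).le (hi₀ i (Finset.mem_univ _))⟩

theorem E_neg' (f : ℚ⟦X⟧) (z : ℝ) : E (-f) z = -E f z := by
  unfold E
  rw [← tsum_neg]
  refine tsum_congr fun m => ?_
  rw [map_neg]
  push_cast
  ring

theorem SR_mono' {a b : ℝ} {f : ℚ⟦X⟧} (h : SR b f) (ha : 0 ≤ a) (hab : a ≤ b) : SR a f := h.mono ha hab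

theorem vals : ∃ r : ℝ, 0 < r ∧ ∃ ρ : ℝ, 0 < ρ ∧ (∀ i, SR ρ (hJ i)) ∧ ∀ x : ℝ, 0 < x → x ≤ r →
    |x / (1 - x)| ≤ ρ ∧
    E (hJ 0) (x / (1 - x)) = E (fJ true 1 0) x ∧
    E (hJ 2) (x / (1 - x)) = E (fJ true 1 1) x ∧
    E (hJ 1) (x / (1 - x)) = -E (fJ true 1 2) x + E (fJ true 1 0) x * Real.log (1 - x) ∧
    E (hJ 3) (x / (1 - x)) = -E (fJ true 1 3) x + E (fJ true 1 1) x * Real.log (1 - x) := by
  obtain ⟨ρ, hρ, hS⟩ := SR_hJ
  set r : ℝ := min (1 / 9) (ρ / 2) with hr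
  have hr0 : 0 < r := lt_min (by norm_num) (by positivity)
  have hr1 : r ≤ 1 / 9 := min_le_left _ _
  have hr2 : r ≤ ρ / 2 := min_le_right _ _
  have h9 : (1 : ℝ) / (((1 : ℕ) : ℝ) + 8) = 1 / 9 := by norm_num
  have hsr : SR r (sh 1) := (Pool.Agent.Y37.GF.SR_sh 1).mono hr0.le (by rw [h9]; exact hr1)
  have hlr : SR r (lg 1) := (Pool.Agent.Y37.GF.SR_lg 1).mono hr0.le (by rw [h9]; exact hr1)
  have hle : r / (1 - r) ≤ ρ := by
    rw [div_le_iff₀ (by linarith)]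
    nlinarith
  have hEs : ∀ z : ℝ, |z| ≤ r → E (sh 1) z = z / (1 - z) := by
    intro z hz
    have := Pool.Agent.Y37.GF.E_sh 1 (z := z) (by rw [h9]; exact hz.trans hr1)
    rw [this, Nat.cast_one, one_mul]
  have hEl : ∀ z : ℝ, |z| ≤ r → E (lg 1) z = Real.log (1 - z) := by
    intro z hz
    have := Pool.Agent.Y37.GF.E_lg 1 (z := z) (by rw [h9]; exact hz.trans hr1)
    rw [this, Nat.cast_one, one_mul]
  have hsub : ∀ i, SR r (sf 1 (hJ i)) ∧ ∀ z, |z| ≤ r → E (sf 1 (hJ i)) z = E (hJ i) (z / (1 - z)) := by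
    intro i
    have h := Pool.Agent.Y37.GF.subst_main (f := hJ i) (ρ := ρ) (Pool.Agent.Y37.GF.hasSubst_sh 1)
      (Pool.Agent.Y37.GF.coeff_sh_nonneg 1) hr0.le hsr
      (by rw [hEs r (by rw [abs_of_pos hr0])]; exact hle) (hS i)
    exact ⟨h.1, fun z hz => by
      have h2 := h.2 z hz
      rw [hEs z hz] at h2
      exact h2⟩
  have hST : Pool.Agent.Y120.J.hS true = hJ := by
    funext j
    unfold Pool.Agent.Y120.J.hS
    rw [if_pos rfl]
  refine ⟨r, hr0, ρ, hρ, hS, fun x hx0 hxr => ?_⟩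
  have hxa : |x| ≤ r := by
    rw [abs_of_pos hx0]
    exact hxr
  have e0 : fJ true 1 0 = sf 1 (hJ 0) := by
    show sf 1 (Pool.Agent.Y120.J.hS true 0) = _
    rw [hST]
  have e1 : fJ true 1 1 = sf 1 (hJ 2) := by
    show sf 1 (Pool.Agent.Y120.J.hS true 2) = _
    rw [hST]
  have e2 : fJ true 1 2 = -(sf 1 (hJ 1) - sf 1 (hJ 0) * lg 1) := by
    show -(sf 1 (Pool.Agent.Y120.J.hS true 1) - sf 1 (Pool.Agent.Y120.J.hS true 0) * lg 1) = _
    rw [hST]
  have e3 : fJ true 1 3 = -(sf 1 (hJ 3) - sf 1 (hJ 2) * lg 1) := by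
    show -(sf 1 (Pool.Agent.Y120.J.hS true 3) - sf 1 (Pool.Agent.Y120.J.hS true 2) * lg 1) = _
    rw [hST]
  have E0 : E (fJ true 1 0) x = E (hJ 0) (x / (1 - x)) := by
    rw [e0]
    exact (hsub 0).2 x hxa
  have E1 : E (fJ true 1 1) x = E (hJ 2) (x / (1 - x)) := by
    rw [e1]
    exact (hsub 2).2 x hxa
  have E2 : E (fJ true 1 2) x =
      -(E (hJ 1) (x / (1 - x)) - E (hJ 0) (x / (1 - x)) * Real.log (1 - x)) := by
    rw [e2, E_neg', Pool.Agent.Y37.GF.E_sub (hsub 1).1 ((hsub 0).1.mul hr0.le hlr) hxa,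
      Pool.Agent.Y37.GF.E_mul (hsub 0).1 hlr hxa, (hsub 1).2 x hxa, (hsub 0).2 x hxa, hEl x hxa]
  have E3 : E (fJ true 1 3) x =
      -(E (hJ 3) (x / (1 - x)) - E (hJ 2) (x / (1 - x)) * Real.log (1 - x)) := by
    rw [e3, E_neg', Pool.Agent.Y37.GF.E_sub (hsub 3).1 ((hsub 2).1.mul hr0.le hlr) hxa,
      Pool.Agent.Y37.GF.E_mul (hsub 2).1 hlr hxa, (hsub 3).2 x hxa, (hsub 2).2 x hxa, hEl x hxa]
  refine ⟨?_, E0.symm, E1.symm, ?_, ?_⟩
  · have h1 : 0 < 1 - x := by linarith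
    rw [abs_of_pos (div_pos hx0 h1), div_le_iff₀ h1]
    nlinarith
  · rw [E2, E0]
    ring
  · rw [E3, E1]
    ring

theorem t_vcj (hu : T_U true) (hsb : T_SB true) : T_VCJ := by
  intro x y hy R hR
  obtain ⟨Δ, c, hc⟩ := nform (PR R)
  obtain ⟨r, hr0, ρ, hρ, hS, hv⟩ := vals
  have hz1 : 0 < z1 true 1 := by
    rw [z1_eq]
    norm_num
  have key : ∀ z ∈ Ioo 0 (z1 true 1), ∀ e, (c e).1 z = 0 := by
    refine hsb 1 le_rfl Δ (fun e => (c e).1) (fun e x hx => (c e).2 x hx) ?_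
    have h1 : ∀ᶠ z in 𝓝[>] (0 : ℝ), z ∈ Ioo 0 (min r (z1 true 1)) :=
      Ioo_mem_nhdsGT (lt_min hr0 hz1)
    filter_upwards [h1, nhdsWithin_le_nhds (hu 1 le_rfl).2.1] with z hz hz2
    have hzr : z ≤ r := (hz.2.trans_le (min_le_left _ _)).le
    have hzz : z ∈ Ioo 0 (z1 true 1) := ⟨hz.1, hz.2.trans_le (min_le_right _ _)⟩
    obtain ⟨v0, v1, v2, v3, v4⟩ := hv z hz.1 hzr
    have hq := (hu 1 le_rfl).2.2 z hzz
    have hq' : ut true 1 z 0 * ut true 1 z 3 - ut true 1 z 1 * ut true 1 z 2 = -1 :=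
      hq.2.2.2.2.2
    have h2 := hc ℝ (eR z) (ut true 1 z) hq'
    rw [ev_PR, cfR] at h2
    have h3 := (E_rel hJ hρ.le hS v0 R).2
    rw [hR] at h3
    have h4 : (fun i => E (hJ i) (z / (1 - z))) =
        ![ut true 1 z 0, -ut true 1 z 2 + ut true 1 z 0 * eR z logR, ut true 1 z 1,
          -ut true 1 z 3 + ut true 1 z 1 * eR z logR] := by
      funext i
      fin_cases i
      · show E (hJ 0) _ = ut true 1 z 0
        rw [hz2 0, v1]
      · show E (hJ 1) _ = -ut true 1 z 2 + ut true 1 z 0 * Real.log (1 - z)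
        rw [hz2 0, hz2 2, v3]
      · show E (hJ 2) _ = ut true 1 z 1
        rw [hz2 1, v2]
      · show E (hJ 3) _ = -ut true 1 z 3 + ut true 1 z 1 * Real.log (1 - z)
        rw [hz2 1, hz2 3, v4]
    have h5 : E (0 : ℚ⟦X⟧) (z / (1 - z)) = 0 := by simp [E]
    rw [← h4, ← h3, h5] at h2
    exact h2.symm
  obtain ⟨q, hq⟩ : ∃ q : Polynomial ℂ, q = MvPolynomial.eval₂Hom
    (Polynomial.mapRingHom (algebraMap ℚ ℂ)) (fun i => Polynomial.C (y i)) R := ⟨_, rfl⟩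
  have hqe : ∀ z : ℂ, q.eval z =
      MvPolynomial.eval₂ (Polynomial.aeval z : Polynomial ℚ →ₐ[ℚ] ℂ).toRingHom y R := by
    intro z
    have h := RingHom.congr_fun (MvPolynomial.comp_eval₂Hom (Polynomial.mapRingHom (algebraMap ℚ ℂ))
      (fun i => Polynomial.C (y i)) (Polynomial.evalRingHom z)) R
    have h1 : (Polynomial.evalRingHom z).comp (Polynomial.mapRingHom (algebraMap ℚ ℂ)) =
        (Polynomial.aeval z : Polynomial ℚ →ₐ[ℚ] ℂ).toRingHom := by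
      apply rhom
      show Polynomial.eval z (Polynomial.map (algebraMap ℚ ℂ) Polynomial.X) =
        Polynomial.aeval z Polynomial.X
      rw [Polynomial.map_X, Polynomial.eval_X, Polynomial.aeval_X]
    have h2 : (fun i => Polynomial.evalRingHom z (Polynomial.C (y i))) = y := by
      funext i
      simp
    rw [h1, h2] at h
    rw [hq]
    exact h
  have hq0 : q = 0 := by
    apply Polynomial.eq_zero_of_infinite_isRoot
    refine ((Set.Ioo_infinite hz1).image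
      (f := fun z : ℝ => ((z / (1 - z) : ℝ) : ℂ)) ?_).mono ?_
    · intro a ha b hb hab
      have h1 : a / (1 - a) = b / (1 - b) := Complex.ofReal_injective hab
      have ha1 := (lt_one ⟨ha.1.le, ha.2.le⟩).ne'
      have hb1 := (lt_one ⟨hb.1.le, hb.2.le⟩).ne'
      rw [div_eq_div_iff ha1 hb1] at h1
      linarith
    · rintro _ ⟨z, hz, rfl⟩
      show q.eval _ = 0
      rw [hqe]
      have hw : (![y 0, y 2, -(y 1 - y 0 * ((Real.log (1 - z) : ℝ) : ℂ)),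
          -(y 3 - y 2 * ((Real.log (1 - z) : ℝ) : ℂ))] : Fin 4 → ℂ) 0 *
          (![y 0, y 2, -(y 1 - y 0 * ((Real.log (1 - z) : ℝ) : ℂ)),
          -(y 3 - y 2 * ((Real.log (1 - z) : ℝ) : ℂ))] : Fin 4 → ℂ) 3 -
          (![y 0, y 2, -(y 1 - y 0 * ((Real.log (1 - z) : ℝ) : ℂ)),
          -(y 3 - y 2 * ((Real.log (1 - z) : ℝ) : ℂ))] : Fin 4 → ℂ) 1 *
          (![y 0, y 2, -(y 1 - y 0 * ((Real.log (1 - z) : ℝ) : ℂ)),
          -(y 3 - y 2 * ((Real.log (1 - z) : ℝ) : ℂ))] : Fin 4 → ℂ) 2 = -1 := by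
        show y 0 * -(y 3 - y 2 * ((Real.log (1 - z) : ℝ) : ℂ)) -
          y 2 * -(y 1 - y 0 * ((Real.log (1 - z) : ℝ) : ℂ)) = -1
        linear_combination -hy.2
      have h1 := hc ℂ ((algebraMap ℝ ℂ).comp (eR z)) _ hw
      have h2 : ∀ e, ((algebraMap ℝ ℂ).comp (eR z)) (c e) = 0 := fun e => by
        show algebraMap ℝ ℂ ((c e).1 z) = 0
        rw [key z hz e, map_zero]
      rw [Finset.sum_eq_zero (fun e _ => by rw [h2 e, zero_mul]), ev_PR, cfC] at h1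
      have h3 : ∀ L : ℂ, (![y 0, -(-(y 1 - y 0 * L)) + y 0 * L, y 2,
          -(-(y 3 - y 2 * L)) + y 2 * L] : Fin 4 → ℂ) = y := by
        intro L
        funext i
        fin_cases i
        · rfl
        · show -(-(y 1 - y 0 * L)) + y 0 * L = y 1
          ring
        · rfl
        · show -(-(y 3 - y 2 * L)) + y 2 * L = y 3
          ring
      have h4 := h3 ((Real.log (1 - z) : ℝ) : ℂ)
      have h5 : MvPolynomial.eval₂ (Polynomial.aeval ((z / (1 - z) : ℝ) : ℂ) :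
        Polynomial ℚ →ₐ[ℚ] ℂ).toRingHom (![y 0, -(-(y 1 - y 0 * ((Real.log (1 - z) : ℝ) : ℂ))) +
          y 0 * ((Real.log (1 - z) : ℝ) : ℂ), y 2,
          -(-(y 3 - y 2 * ((Real.log (1 - z) : ℝ) : ℂ))) +
            y 2 * ((Real.log (1 - z) : ℝ) : ℂ)] : Fin 4 → ℂ) R = 0 := h1
      rw [h4] at h5
      exact h5
  rw [← hqe, hq0, Polynomial.eval_zero]

end Pool.Agent.Y925.A
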